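import Pool.Agent.X252.SCT

/-!
# Group actions and the Künneth standard conjecture

Let a finite group `G` act on a smooth projective variety `X` of dimension `n`, over a field of any
characteristic, and let `H^*` be a Weil cohomology theory. For a subgroup `H` of `G` we say that
the `i`-th Künneth component of the quotient `X/H` is algebraic if some rational cycle of
codimension `n` on `X × X` acts on `H^i(X)` as `∑_{h ∈ H} h^*`, and as zero on the other degrees.

The elements `x` of the rational group ring such that `x^* ∘ π_i` is algebraic are a two-sided ideal
`I`. The element `∑_{h ∈ H} h` is contained in `I` if and only if the `i`-th component of `X/H` is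
algebraic, and `1 ∈ I` if and only if `π_i` is algebraic; `I` contains the annihilators of `H^i(X)`
and of the sum of the other groups. We draw the consequences from the structure of the semisimple
ring `ℚ[G]`. In particular

* if no irreducible rational representation of `G` occurs in `H^i(X)` and in `H^j(X)` for some
  `j ≠ i`, then `π_i` is algebraic; in general only the representations which occur in both matter;
* if `c` is an involution, then `π_i` is algebraic for `X` if and only if it is for `X/c` and for
  `X/[G,c]`; if `c` is contained in a nonabelian simple subgroup, if and only if it is for `X/c`;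
* if a subgroup `K` is partitioned into subgroups `D_j`, at least two, then `π_i` is algebraic for
  `X` if and only if it is for all the `X/D_j`;
* if `π_i` is not algebraic for `X`, but for all quotients by subgroups of prime order, then some
  irreducible rational representation of `G` which occurs in `H^i(X)` and in another `H^j(X)` is
  fixed point free (so `G` is a Frobenius complement), the subgroups of `G` of order `p q` and the
  commutative subgroups are cyclic, and `G` has at most one involution.
-/

open CategoryTheory Pool.Agent.H914 Pool.Agent.X252.GA Pool.Agent.X252.SCT Pool.Agent.X310.Mu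

universe u v

namespace Pool.Agent.Results.MP_4ca46c_ag.AutomorphismGroups

/-- **Group actions and the Künneth standard conjecture.** -/
theorem result {k : Type u} [Field k] {𝒱 : VarClass k} {ops : CycleOps 𝒱}
    (W : WeilCohomology.{u, v} ops) (X : 𝒱.Obj) {G : Type} [Group G] [Finite G]
    (a : G →* Aut X) (i : ℕ) :
    (NoCommon W a {i} → DegreesAlg W X {i}) ∧
    (∀ (H : Subgroup G) (ι : Type) (D : ι → Subgroup G), DominatedOn W a {i} H D →
      (∀ j, QuotientAlg W a (D j) {i}) → QuotientAlg W a H {i}) ∧
    (∀ c : G, c * c = 1 → (DegreesAlg W X {i} ↔
      QuotientAlg W a (Subgroup.zpowers c) {i} ∧ QuotientAlg W a (comms c) {i})) ∧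
    (∀ c : G, InSimple c → c ≠ 1 → c * c = 1 →
      (DegreesAlg W X {i} ↔ QuotientAlg W a (Subgroup.zpowers c) {i})) ∧
    (∀ (ι : Type) (D : ι → Subgroup G) (K : Subgroup G), Partitions K D →
      (DegreesAlg W X {i} ↔ ∀ j, QuotientAlg W a (D j) {i})) ∧
    (¬ DegreesAlg W X {i} → (∀ P : Subgroup G, (Nat.card P).Prime → QuotientAlg W a P {i}) →
      CommonFree W a {i} ∧ CyclicSubgroups G) :=
  main' W X a {i}

end Pool.Agent.Results.MP_4ca46c_ag.AutomorphismGroups
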