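import Pool.Agent.X310.Wt9

/-!
# A canonical decomposition of the diagonal

Let `X` be a smooth projective variety of dimension `n` over a field of any characteristic. The
Künneth components `π_j` of the diagonal, if they are algebraic, form a system of orthogonal
idempotents with sum `Δ`, and `π_(j + 2 (p - n)) ∘ y = y ∘ π_j` for every correspondence `y` of
codimension `p` on `X × X`. We prove that up to numerical equivalence such a system of cycles
exists on every `X`, with no hypothesis (except that there is a Weil cohomology theory), and that
it is unique if it is normalised by its intersection numbers with the numerically central cycles: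
there are cycles `P_λ` of codimension `n` on `X × X`, for rational numbers `λ`, almost all
numerically trivial, such that up to numerical equivalence

* the sum of the `P_λ` is the diagonal, `P_λ ∘ P_λ = P_λ`, and `P_λ ∘ P_μ = 0` for `λ ≠ μ`;
* `P_(λ + 2 (p - n)) ∘ y = y ∘ P_λ` for all cycles `y` of codimension `p` on `X × X`, for all `p`;
* `∑_λ λ (P_λ · ᵗz) = 0` for all cycles `z` of codimension `n` on `X × X` which commute with all
  correspondences up to numerical equivalence;

and the `P_λ` are unique up to numerical equivalence. In other words the algebra of all
correspondences on `X` modulo numerical equivalence has a canonical grading operator `∑_λ λ P_λ`.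

For every Weil cohomology theory the following are equivalent: `P_(j - n)` is numerically
equivalent to a cycle which induces the projector onto `H^j(X)`, for all `j`; all the Künneth
components are algebraic and `∑_j (j - n) Tr(z | H^j(X)) = 0` for all numerically central `z`; and,
if there is a divisor `D` with the hard Lefschetz property, the standard conjecture `B` for `D`. So
the conjecture `B` says exactly that the canonical decomposition is the Künneth decomposition.

The proof: the numerical correspondences of all degrees form a finite dimensional graded algebra
with a nondegenerate trace form which vanishes on nilpotent elements. The element `Ω` which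
represents the trace of the regular representation is central and invertible, the element `w'`
which represents `y ↦ tr(L_y ∘ δ)`, where `δ` is the derivation given by the degree, satisfies
`[w', x] = δ(x) Ω`, and `w = w' Ω⁻¹` is a sum of commutators. It is semisimple, and its eigenvalues
are rational by the argument of the proof of Cartan's criterion for solvability.
-/

open Pool.Agent.H914 Pool.Agent.H447 Pool.Agent.X310 Pool.Agent.X310.Wt

universe u v

namespace Pool.Agent.Results.MP_4ca46c_ag.CanonicalDecomposition

/-- **The canonical decomposition of the diagonal.** -/
theorem result {k : Type u} [Field k] {𝒱 : VarClass k} {ops : CycleOps 𝒱}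
    (W₀ : WeilCohomology.{u, v} ops) (X : 𝒱.Obj) :
    (∃ Λ P, IsWeightDecomposition ops X Λ P) ∧
    (∀ Λ Λ' P P', IsWeightDecomposition ops X Λ P → IsWeightDecomposition ops X Λ' P' →
      ∀ l, NumEquiv ops (X.prod X) X.dim (P l) (P' l)) ∧
    ∀ (W : WeilCohomology.{u, v} ops) Λ P, IsWeightDecomposition ops X Λ P →
      (IsKunneth W X P ↔ KunnethStd W X ∧ CentralTraceZero W X) ∧
      ∀ D, X.IsCyc 1 D → HardLefschetz W X D → (IsKunneth W X P ↔ LefschetzB W X D) :=
  ⟨exists_decomposition W₀ X, fun _ _ _ _ h h' l => decomposition_unique W₀ h h' l,
    fun _ _ _ h => ⟨isKunneth_iff h, fun _ hD hX =>
      (isKunneth_iff h).trans ((central_tfae hD hX).out 0 2).symm⟩⟩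

end Pool.Agent.Results.MP_4ca46c_ag.CanonicalDecomposition
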