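import Pool.Agent.X310.Cen

/-!
# The Künneth conjecture as the equality case of two inequalities between intersection numbers

Let `X` be a smooth projective variety of dimension `n` over a field of any characteristic and `H` a
Weil cohomology theory. Let `w` and `c` be cycles of codimension `n` on `X × X`, with rational
coefficients, such that for all cycles `b` of codimension `n` on `X × X`

`w · ᵗb = ∑_j Tr(b | H^j(X))`   and   `c · ᵗb = ∑_j (-1)^j (j - n) Tr(b | H^j(X))`:

up to numerical equivalence `w` is the operator `(-1)^j` and `c` the operator `j - n` on `H^j(X)`.
Then

* `w · ᵗ(w ∘ w) ≥ ∑_j b_j(X)`, and
* if this is an equality, then `w · ᵗ(c ∘ c) ≤ ∑_j (j - n)² b_j(X)`, with equality if and only if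
  all the Künneth components of the diagonal of `X` are algebraic.

Conversely, if the Künneth components are algebraic there are such cycles with equality in both. So
the conjecture `C(X)` is the existence of two cycles with prescribed intersection numbers together
with two equalities between numbers. No product of `c` with itself or with a Künneth component is
required to be numerically equivalent to anything.

The proof: the eigenvalues of `c` on `H(X)` (over an algebraic closure) are averages of the numbers
`j - n`, weighted with the multiplicities in the degrees `j`; the difference of the two sides of the
second inequality is the sum of the variances.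
-/

open Pool.Agent.H914 Pool.Agent.H447 Pool.Agent.X310

universe u v

namespace Pool.Agent.Results.MP_4ca46c_ag.SquareInequality

/-- **The Künneth conjecture as the equality case of two inequalities between intersection
numbers.** -/
theorem result {k : Type u} [Field k] {𝒱 : VarClass k} {ops : CycleOps 𝒱}
    (W : WeilCohomology.{u, v} ops) (X : 𝒱.Obj) :
    (KunnethStd W X ↔ ∃ w c, RepresentsTrace W X w ∧ RepresentsWeight W X c ∧
      interT ops X w (compCyc ops w w) = totalBetti W X ∧
      interT ops X w (compCyc ops c c) = totalWeight W X) ∧
    ∀ w c, RepresentsTrace W X w → RepresentsWeight W X c →
      totalBetti W X ≤ interT ops X w (compCyc ops w w) ∧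
      (interT ops X w (compCyc ops w w) = totalBetti W X →
        interT ops X w (compCyc ops c c) ≤ totalWeight W X ∧
          (interT ops X w (compCyc ops c c) = totalWeight W X ↔ KunnethStd W X)) :=
  kunneth_main

end Pool.Agent.Results.MP_4ca46c_ag.SquareInequality
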